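import Pool.Agent.Lib.helper13.PR
import Pool.Agent.Lib.helper21.Dfa

namespace Pool.Agent.H.MP_054fd8_lc
open Pool.Agent.Lib.PR Pool.Agent.Lib.helper21.Dfa Set Classical
open Nat.Partrec (Code)

attribute [local irreducible] Primrec Computable

def Ok (l : List (Option ℕ)) (x : ℕ) : Prop := l.length.unpair.1 < x ∧
  Code.evaln l.length (Denumerable.ofNat Code l.length.unpair.1) x = some 1 ∧
  ∀ t < l.length, t.unpair.1 = l.length.unpair.1 → l.getD t none ≠ none →
    2 * t < x ∧ ∀ u < l.length, l.getD u none = some x → t < u.unpair.1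

noncomputable def st (s : ℕ) : List (Option ℕ) :=
  (fun l => l ++ [(List.range l.length).find? fun x => cd (Ok l x)])^[s] []

noncomputable def act (s : ℕ) : Option ℕ := (st (s + 1)).getD s none

theorem st_eq (s) : st s = (List.range s).map act ∧ act s = (List.range s).find? fun x => cd (Ok (st s) x) := by
  have e : ∀ s, st (s + 1) = st s ++ [(List.range (st s).length).find? fun x => cd (Ok (st s) x)] := fun s =>
    Function.iterate_succ_apply' ..
  have l : ∀ s, (st s).length = s := fun s => by induction s <;> simp_all [show st 0 = [] from rfl]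
  have a : ∀ s, act s = (List.range s).find? fun x => cd (Ok (st s) x) := fun s => by simp [act, e, l]
  refine ⟨?_, a s⟩
  induction s with
  | zero => rfl
  | succ s ih => rw [e, l, ← a, ih, List.range_succ, List.map_append]; rfl

theorem p_act : Primrec act := by unfold act st Ok; fun_prop

theorem ok_iff {s x} : Ok (st s) x ↔ s.unpair.1 < x ∧ Code.evaln s (Denumerable.ofNat Code s.unpair.1) x = some 1 ∧
    ∀ t < s, t.unpair.1 = s.unpair.1 → act t ≠ none → 2 * t < x ∧ ∀ u < s, act u = some x → t < u.unpair.1 := by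
  simp +contextual [Ok, (st_eq s).1]

theorem act_some {s x} (h : act s = some x) : x < s ∧ Ok (st s) x := by
  rw [(st_eq s).2] at h
  exact ⟨List.mem_range.1 (List.mem_of_find?_eq_some h), cd_true.1 (List.find?_some (p := fun x => cd (Ok (st s) x)) h)⟩

def A (e x s : ℕ) : Prop := ∃ t < s, t.unpair.1 = e ∧ act t = some x

def X (e : ℕ) : Set ℕ := {x | ∃ t, t.unpair.1 = e ∧ act t = some x}

theorem later {s t x y} (e : s.unpair.1 = t.unpair.1) (hs : act s = some x) (ht : act t = some y) (l : x < y) :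
    2 * s < y := by
  rcases lt_trichotomy s t with h | rfl | h
  · exact ((ok_iff.1 (act_some ht).2).2.2 s h e (by simp [hs])).1
  · simp [hs] at ht; omega
  · have := ((ok_iff.1 (act_some hs).2).2.2 t h e.symm (by simp [ht])).1
    have := (act_some ht).1; omega

theorem X_gt {e x} (h : x ∈ X e) : e < x := let ⟨_, e, h⟩ := h; e ▸ (ok_iff.1 (act_some h).2).1

def T : Set (List Bool) := {σ | ∀ a < σ.length, ∀ y < σ.length, σ.getD a false = true →
  (∀ b < a, σ.getD b false = false) → σ.getD y false = true → a < y →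
    (∀ y' < σ.length, y < y' → σ.getD y' false = true → A a y y') ∧ ∀ z < y, A a z σ.length → σ.getD z false = true}

theorem c_T : ComputablePred (· ∈ T) := by
  have := p_act
  exact (pred (p := (· ∈ T)) (by simp only [T, A, mem_ofPred_eq]; fun_prop)).computablePred

theorem T_pre : ∀ σ ∈ T, ∀ τ, τ <+: σ → τ ∈ T := by
  rintro _ h τ ⟨ρ, rfl⟩ a ha y hy h1 h2 h3 h4
  have g : ∀ i < τ.length, (τ ++ ρ).getD i false = τ.getD i false := fun i hi => List.getD_append _ _ _ _ hi
  have l : τ.length ≤ (τ ++ ρ).length := by simp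
  obtain ⟨k1, k2⟩ := h a (by omega) y (by omega) (g a ha ▸ h1) (fun b hb => g b (by omega) ▸ h2 b hb) (g y hy ▸ h3) h4
  exact ⟨fun y' a b c => k1 y' (by omega) b (g y' a ▸ c), fun z a ⟨t, b, c⟩ => g z (by omega) ▸ k2 z a ⟨t, by omega, c⟩⟩

def P : Set (ℕ → Bool) := {x | ∀ n, (List.range n).map x ∈ T}

theorem mem_P {x} : x ∈ P ↔ ∀ a y, x a = true → (∀ b < a, x b = false) → x y = true → a < y →
    (∀ y', y < y' → x y' = true → A a y y') ∧ ∀ z < y, z ∈ X a → x z = true := by
  have g : ∀ n, ∀ i < n, ((List.range n).map x).getD i false = x i := fun n i hi => by simp [hi]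
  have l : ∀ n, ((List.range n).map x).length = n := by simp
  refine ⟨fun h a y h1 h2 h3 h4 => ?_, fun h n a ha y hy h1 h2 h3 h4 => ?_⟩
  · have k := fun n (hn : y < n) => h n a (by rw [l]; omega) y (by rw [l]; omega) (g n a (by omega) ▸ h1)
      (fun b hb => g n b (by omega) ▸ h2 b hb) (g n y hn ▸ h3) h4
    refine ⟨fun y' a b => (k (y' + 1) (by omega)).1 y' (by simp) a ((g (y' + 1) y' (by omega)).trans b), fun z a ⟨t, b⟩ => ?_⟩
    exact g (t + y + 1) z (by omega) ▸ (k (t + y + 1) (by omega)).2 z a ⟨t, by rw [l]; omega, b⟩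
  · rw [l] at ha hy ⊢
    obtain ⟨k1, k2⟩ := h a y (g n a ha ▸ h1) (fun b hb => g n b (by omega) ▸ h2 b hb) (g n y hy ▸ h3) h4
    exact ⟨fun y' a b c => k1 y' b (g n y' a ▸ c), fun z a ⟨t, _, c⟩ => g n z (by omega) ▸ k2 z a ⟨t, c⟩⟩

noncomputable def χ (e n : ℕ) : Bool := cd (n ∈ insert e (X e))

theorem χ_mem (e) : χ e ∈ P := mem_P.2 fun a y h1 h2 h3 h4 => by
  have : a = e := (cd_true.1 h1).resolve_right fun h => by simpa [χ, ← Bool.not_eq_true] using h2 e (X_gt h)
  subst this
  obtain ⟨t, t1, t2⟩ := (cd_true.1 h3).resolve_left h4.ne'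
  refine ⟨fun y' a b => ?_, fun z _ h => cd_true.2 (.inr h)⟩
  obtain ⟨s, s1, s2⟩ := (cd_true.1 b).resolve_left (by omega)
  exact ⟨t, by have := later (t1.trans s1.symm) t2 s2 a; omega, t1, t2⟩

theorem inf_mem {x} (h : x ∈ P) (i : {n | x n = true}.Infinite) : ∃ e, x = χ e := by
  have ex : ∃ n, x n = true := i.nonempty
  have m : ∀ b < Nat.find ex, x b = false := fun b hb => by simpa using Nat.find_min ex hb
  have k := fun y => mem_P.1 h _ y (Nat.find_spec ex) m
  refine ⟨Nat.find ex, funext fun n => Bool.eq_iff_iff.2 ⟨fun hn => cd_true.2 ?_, fun hn => ?_⟩⟩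
  · refine (Nat.find_min' ex hn).eq_or_lt.imp Eq.symm fun l => ?_
    obtain ⟨y, y1, y2⟩ := i.exists_gt n
    obtain ⟨t, -, b⟩ := (k n hn l).1 y y2 y1
    exact ⟨t, b⟩
  · rcases cd_true.1 hn with rfl | hn
    · exact Nat.find_spec ex
    · obtain ⟨y, y1, y2⟩ := i.exists_gt n
      exact (k y y1 ((X_gt hn).trans y2)).2 n y2 hn

theorem χ_set (e) : {n | χ e n = true} = insert e (X e) := by ext; simp [χ]

theorem χ_comp {e} (h : (X e).Infinite) : Computable (χ e) := by
  have := p_act
  have : ComputablePred (· ∈ insert e (X e)) := by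
    refine dec_of_two (β := ℕ) (γ := ℕ) (P := fun x t => x = e ∨ (t.unpair.1 = e ∧ act t = some x))
      (N := fun x t => x ≠ e ∧ t.unpair.1 = e ∧ x < (act t).getD 0 ∧ ¬ A e x t) (pred (by fun_prop))
      (pred (by unfold A; fun_prop)) (fun x => by simp [X, exists_or]) fun x => ⟨fun hx => ?_, ?_⟩
    · obtain ⟨y, ⟨t, t1, t2⟩, l⟩ := h.exists_gt x
      exact ⟨t, fun e => hx (.inl e), t1, by simpa [t2] using l, fun ⟨u, _, b⟩ => hx (.inr ⟨u, b⟩)⟩
    · rintro ⟨t, h1, h2, h3, h4⟩ (e | ⟨u, u1, u2⟩)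
      · exact h1 e
      · rcases a : act t with _ | y <;> simp [a] at h3
        have := later (u1.trans h2.symm) u2 a h3
        have := (act_some a).1
        exact h4 ⟨u, by omega, u1, u2⟩
  exact this.decide.of_eq fun n => by rw [Bool.eq_iff_iff]; simp [χ]

theorem ad {a b} (ne : a ≠ b) : (X a ∩ X b).Finite := by
  by_contra h
  have h : (X a ∩ X b).Infinite := h
  obtain ⟨x, ⟨⟨s, s1, s2⟩, t, t1, t2⟩, l⟩ := h.exists_gt (a + b)
  obtain ⟨y, ⟨⟨u, u1, u2⟩, v, v1, v2⟩, l'⟩ := h.exists_gt (s + t)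
  have := (act_some s2).1; have := (act_some t2).1; have := (act_some u2).1; have := (act_some v2).1
  rcases lt_trichotomy u v with c | rfl | c
  · have := ((ok_iff.1 (act_some v2).2).2.2 t (by omega) (t1.trans v1.symm) (by simp [t2])).2 u c u2; omega
  · exact ne (u1.symm.trans v1)
  · have := ((ok_iff.1 (act_some u2).2).2.2 s (by omega) (s1.trans u1.symm) (by simp [s2])).2 v c v2; omega

theorem maxi {R : ℕ → Bool} (hR : Computable R) (i : {n | R n = true}.Infinite) :
    ∃ e, (X e ∩ {n | R n = true}).Infinite := by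
  obtain ⟨c, hc⟩ := Code.exists_code.1 (Partrec.nat_iff.1 (show Computable fun n => (R n).toNat by fun_prop).partrec)
  by_contra hn
  simp only [not_exists, not_infinite] at hn
  have sub : X (Encodable.encode c) ⊆ {n | R n = true} := fun x ⟨t, t1, t2⟩ => by
    have := Code.evaln_sound (ok_iff.1 (act_some t2).2).2.1
    rw [t1, Denumerable.ofNat_encode, hc] at this
    cases h : R x <;> simp_all
  obtain ⟨B, hB⟩ : ∃ B, ∀ t, t.unpair.1 = Encodable.encode c → act t ≠ none → t ≤ B := by
    obtain ⟨M, hM⟩ := ((hn (Encodable.encode c)).subset (subset_inter subset_rfl sub)).bddAbove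
    by_contra h
    push Not at h
    obtain ⟨t, t1, t2, t3⟩ := h M
    obtain ⟨u, u1, u2, u3⟩ := h t
    obtain ⟨y, hy⟩ := Option.ne_none_iff_exists'.1 u2
    have := ((ok_iff.1 (act_some hy).2).2.2 t u3 (t1.trans u1.symm) t2).1
    have := hM ⟨u, u1, hy⟩; omega
  obtain ⟨x, ⟨x1, x2⟩, l⟩ := (i.sdiff ((finite_le_nat B).biUnion fun j _ => hn j)).exists_gt (2 * B + Encodable.encode c)
  obtain ⟨k, hk⟩ := Code.evaln_complete.1 (show 1 ∈ c.eval x by rw [hc]; simp [show R x = true from x1])
  have l2 := Nat.right_le_pair (Encodable.encode c) (k + x + B + 1)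
  generalize e : Nat.pair (Encodable.encode c) (k + x + B + 1) = s at l2
  have e1 : s.unpair.1 = Encodable.encode c := by simp [← e]
  refine absurd (hB s e1 ?_) (by omega)
  rw [(st_eq s).2, Ne, List.find?_eq_none]
  refine fun h => h x (List.mem_range.2 (by omega)) (cd_true.2 (ok_iff.2 ⟨by omega, ?_, fun t _ t1 t2 => ?_⟩))
  · rw [e1, Denumerable.ofNat_encode]; exact Code.evaln_mono (by omega) hk
  · have := hB t (t1.trans e1) t2
    refine ⟨by omega, fun u _ u1 => not_le.1 fun h => x2 (mem_biUnion (h.trans this) ⟨⟨u, rfl, u1⟩, x1⟩)⟩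

theorem coinf (F : Finset ℕ) : {n | ∀ e ∈ F, n ∉ X e}.Infinite := fun h => by
  obtain ⟨M, hM⟩ := h.bddAbove
  have : ∀ n ∈ Finset.Ioc (M + F.card + 1) (M + 2 * F.card + 2), ∃ e ∈ F, n ∈ X e := fun n hn => by
    by_contra c
    push Not at c
    have := hM c
    simp at hn; omega
  choose! f f1 f2 using this
  obtain ⟨x, hx, y, hy, ne, e⟩ := Finset.exists_ne_map_eq_of_card_lt_of_maps_to (by simp; omega) f1
  wlog l : x < y generalizing x y
  · exact this y hy x hx ne.symm e.symm (by omega)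
  obtain ⟨s, s1, s2⟩ := f2 x hx
  obtain ⟨t, t1, t2⟩ := f2 y hy
  have := later (s1.trans (e.trans t1.symm)) s2 t2 l
  have := (act_some s2).1
  simp at hx hy; omega

theorem many : {e | (X e).Infinite}.Infinite := fun h => by
  have c : ∀ l : List ℕ, (∀ e ∈ l, (X e).Infinite) → Computable fun n => l.all fun e => !χ e n := fun l hl => by
    induction l with
    | nil => exact .const true
    | cons e l ih =>
      exact Primrec.and.to_comp.comp (Primrec.not.to_comp.comp (χ_comp (hl e (by simp))))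
        (ih fun e he => hl e (by simp [he]))
  obtain ⟨e, he⟩ := maxi (c h.toFinset.toList (by simp)) (((coinf h.toFinset).sdiff h).mono fun n hn => by
    simpa [χ, ← Bool.not_eq_true] using fun e he => ⟨fun b => hn.2 (b ▸ he), hn.1 e (by simpa using he)⟩)
  obtain ⟨n, n1, n2⟩ := he.nonempty
  simp [χ, ← Bool.not_eq_true] at n2
  exact (n2 e (he.mono inter_subset_left)).2 n1

end Pool.Agent.H.MP_054fd8_lc
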